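import Pool.Agent.Helper26.HN.Stmts
import Pool.Agent.Helper21.CF.TLS

/-!
# Row TUZ of the sheet HN (MP_56acfd_mp)
-/

set_option autoImplicit false

namespace Pool.Agent.Helper38.HN

open MeasureTheory Filter Pool.Agent.Helper95 Pool.Agent.Helper95.PW Pool.Agent.Helper95.LN
open Pool.Agent.Helper26.HN Pool.Agent.Helper21.CF Pool.Agent.Helper21.LN

/-- the integrated bound -/
theorem tuz_int (h1 : ST_ESB) (h2 : ST_AED) (h3 : ST_INZ) (h7 : ST_INTM)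
    (z b d : ℝ) (hz : 0 ≤ z) (hb : 0 < b) (hbd : b ≤ d)
    (n M : ℕ) (X : Fin M → R3) (Z : Fin M → ℝ) (u : Wf n) (hS : Sep X d)
    (hN : Nuc n Z) (hZ : ∀ j, Z j ≤ z) (hu : Sm u) :
    kin u ≤ QM X Z u + nucR X Z * Pool.Agent.Helper95.PW.sq u +
      (1 + z) / b * n * Pool.Agent.Helper95.PW.sq u + z * one (near1 X (2 * b)) u := by
  have hint := (h3 n M X (2 * b) u hu).1
  obtain ⟨C, hC⟩ : ∃ C : ℝ, C = (1 + z) / b := ⟨_, rfl⟩
  have H := h1 z b d hz hb hbd n M X Z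
  rw [← hC] at H ⊢
  have key : ∀ s, -(C * n * (∫ x, u s x ^ 2) +
      z * ∫ x, (∑ k, near1 X (2 * b) (x k)) * u s x ^ 2) ≤
      (∫ x, rep x * u s x ^ 2) - (∫ x, (∑ k, pot X Z (x k)) * u s x ^ 2) +
        nucR X Z * ∫ x, u s x ^ 2 := by
    intro s
    obtain ⟨i1, i2, _, _⟩ := h7 n M X Z (u s) (u s) (hu s).1 (hu s).2 (hu s).1 (hu s).2
    have e1 : (fun x : Cf n => (∑ k, pot X Z (x k)) * (u s x * u s x)) =
        fun x : Cf n => (∑ k, pot X Z (x k)) * u s x ^ 2 := by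
      funext x; rw [pow_two]
    have e2 : (fun x : Cf n => rep x * (u s x * u s x)) =
        fun x : Cf n => rep x * u s x ^ 2 := by
      funext x; rw [pow_two]
    rw [e1] at i1
    rw [e2] at i2
    have i3 : Integrable (fun x : Cf n => u s x ^ 2) :=
      (com_memLp _ (hu s).1 (hu s).2).integrable_sq
    have i4 := hint s
    have j1 : Integrable (fun x : Cf n => rep x * u s x ^ 2 -
        (∑ k, pot X Z (x k)) * u s x ^ 2) := i2.sub i1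
    have j2 : Integrable (fun x : Cf n => nucR X Z * u s x ^ 2) := i3.const_mul _
    have j3 : Integrable (fun x : Cf n => C * n * u s x ^ 2) := i3.const_mul _
    have j4 : Integrable (fun x : Cf n => z * ((∑ k, near1 X (2 * b) (x k)) * u s x ^ 2)) :=
      i4.const_mul _
    rw [← integral_const_mul, ← integral_const_mul, ← integral_add j3 j4, ← integral_neg,
      ← integral_sub i2 i1, ← integral_const_mul, ← integral_add j1 j2]
    refine integral_mono_ae (j3.add j4).neg (j1.add j2) ?_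
    filter_upwards [h2 n M X] with x hx
    obtain ⟨g1, g2, g3⟩ := H x hS hN hZ hx
    have h4 : -(C * n + z * ∑ k, near1 X (2 * b) (x k)) ≤ Vc X Z x := by linarith
    have h5 := mul_le_mul_of_nonneg_right h4 (sq_nonneg (u s x))
    unfold Vc at h5
    show -(C * n * u s x ^ 2 +
      z * ((∑ k, near1 X (2 * b) (x k)) * u s x ^ 2)) ≤
      rep x * u s x ^ 2 - (∑ k, pot X Z (x k)) * u s x ^ 2 + nucR X Z * u s x ^ 2
    linarith
  have hsum := Finset.sum_le_sum fun s (_ : s ∈ Finset.univ) => key s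
  rw [Finset.sum_neg_distrib, Finset.sum_add_distrib, Finset.sum_add_distrib,
    Finset.sum_sub_distrib, ← Finset.mul_sum, ← Finset.mul_sum, ← Finset.mul_sum] at hsum
  have e3 : QM X Z u = kin u + pair u - one (pot X Z) u := rfl
  have e4 : pair u = ∑ s, ∫ x, rep x * u s x ^ 2 := rfl
  have e5 : one (pot X Z) u = ∑ s, ∫ x, (∑ k, pot X Z (x k)) * u s x ^ 2 := rfl
  have e6 : Pool.Agent.Helper95.PW.sq u = ∑ s, ∫ x, u s x ^ 2 := rfl
  have e7 : one (near1 X (2 * b)) u = ∑ s, ∫ x, (∑ k, near1 X (2 * b) (x k)) * u s x ^ 2 := rfl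
  rw [← e4, ← e5, ← e6, ← e7] at hsum
  linarith

theorem nuc_le {n M : ℕ} (Z : Fin M → ℝ) (z : ℝ) (hN : Nuc n Z) (hZ : ∀ j, Z j ≤ z) :
    (n : ℝ) ≤ z * M := by
  have h1 : ∑ j, Z j ≤ ∑ _j : Fin M, z := Finset.sum_le_sum fun j _ => hZ j
  have h2 : ∑ _j : Fin M, z = z * M := by
    rw [Finset.sum_const, Finset.card_univ, Fintype.card_fin, nsmul_eq_mul, mul_comm]
  rw [h2] at h1
  refine le_trans (le_of_eq ?_) h1
  exact hN.2.symm

/-- row TUZ -/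
theorem TUZ (h1 : ST_ESB) (h2 : ST_AED) (h3 : ST_NEZ) (h4 : ST_INZ) (h5 : ST_QHM)
    (h6 : ST_INTM) : ST_TUZ := by
  intro d hd
  obtain ⟨C1, hC1, H1⟩ := h3
  obtain ⟨C2, hC2, H2⟩ := H1 d (1 / 2) hd (by norm_num)
  obtain ⟨m0, hm0⟩ : ∃ m0 : ℝ, m0 = min 1 (d / 2) := ⟨_, rfl⟩
  have hm1 : m0 ≤ 1 := by rw [hm0]; exact min_le_left _ _
  have hm2 : m0 ≤ d / 2 := by rw [hm0]; exact min_le_right _ _
  have hmp : 0 < m0 := by rw [hm0]; exact lt_min one_pos (by linarith)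
  obtain ⟨A, hA⟩ : ∃ A : ℝ, A = C1 * (1 / 2 : ℝ) ^ (-(3 / 2) : ℝ) := ⟨_, rfl⟩
  have hA0 : 0 < A := by rw [hA]; positivity
  refine ⟨2 * (9 / 4 + 4 / m0 + 2 * A + C2), by positivity, ?_⟩
  intro n M X Z z E u hz hM hN hZ hS hE hu hanti hsq hres
  have hz0 : 0 < z := by linarith
  have hM1 : (1 : ℝ) ≤ M := by exact_mod_cast hM
  have hnz := nuc_le Z z hN hZ
  obtain ⟨b, hb⟩ : ∃ b : ℝ, b = m0 * z ^ (-(1 / 3) : ℝ) := ⟨_, rfl⟩
  have hzp : 0 < z ^ (-(1 / 3) : ℝ) := Real.rpow_pos_of_pos hz0 _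
  have hz1 : z ^ (-(1 / 3) : ℝ) ≤ 1 :=
    Real.rpow_le_one_of_one_le_of_nonpos hz (by norm_num)
  have hb0 : 0 < b := by rw [hb]; positivity
  have hbm : b ≤ m0 := by
    rw [hb]
    calc m0 * z ^ (-(1 / 3) : ℝ) ≤ m0 * 1 := mul_le_mul_of_nonneg_left hz1 hmp.le
      _ = m0 := mul_one _
  have a1 := tuz_int h1 h2 h4 h6 z b d hz0.le hb0 (by linarith) n M X Z u hS hN hZ hu
  have a2 := tls_Q h5 h6 X Z E 1 one_pos u hu
  have a3 := H2 n M X z (2 * b) u hz hnz hS (by positivity) (by linarith) hu hanti hsq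
  obtain ⟨S, hSd⟩ : ∃ S : ℝ, S = Pool.Agent.Helper95.PW.sq u := ⟨_, rfl⟩
  have hS0 : 0 ≤ S := by
    rw [hSd]
    exact Finset.sum_nonneg fun s _ => integral_nonneg fun x => sq_nonneg _
  obtain ⟨Q, hQd⟩ : ∃ Q : ℝ, Q = z ^ (7 / 3 : ℝ) := ⟨_, rfl⟩
  have hQ1 : 1 ≤ Q := by
    rw [hQd]
    exact Real.one_le_rpow hz (by norm_num)
  rw [← hQd]
  rw [← hSd] at a1 a2 hsq
  have b1 : (E + nucR X Z) * S ≤ 0 := mul_nonpos_of_nonpos_of_nonneg hE hS0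
  have e1 : (z ^ (-(1 / 3) : ℝ)) ^ (1 / 2 : ℝ) = z ^ (-(1 / 6) : ℝ) := by
    rw [← Real.rpow_mul hz0.le]
    norm_num
  have e2 : z ^ (5 / 2 : ℝ) * z ^ (-(1 / 6) : ℝ) = Q := by
    rw [hQd, ← Real.rpow_add hz0]
    norm_num
  have e3 : z * (z ^ (-(1 / 3) : ℝ))⁻¹ * z = Q := by
    have : (z ^ (-(1 / 3) : ℝ))⁻¹ = z ^ (1 / 3 : ℝ) := by
      rw [← Real.rpow_neg hz0.le]
      norm_num
    rw [this, hQd]
    have h : z ^ (7 / 3 : ℝ) = z ^ (1 + 1 / 3 + 1 : ℝ) := by norm_num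
    rw [h, Real.rpow_add hz0, Real.rpow_add hz0, Real.rpow_one]
  have e4 : z ^ 2 ≤ Q := by
    rw [hQd, ← Real.rpow_natCast]
    exact Real.rpow_le_rpow_of_exponent_le hz (by norm_num)
  have b2 : (1 + z) / b * n * S ≤ 4 / m0 * (Q * M) := by
    have c1 : (1 + z) / b ≤ 2 / m0 * (z * (z ^ (-(1 / 3) : ℝ))⁻¹) := by
      rw [hb]
      have c2 : (1 + z) / (m0 * z ^ (-(1 / 3) : ℝ)) =
          (1 + z) * (1 / m0 * (z ^ (-(1 / 3) : ℝ))⁻¹) := by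
        field_simp
      have c3 : 2 / m0 * (z * (z ^ (-(1 / 3) : ℝ))⁻¹) =
          (2 * z) * (1 / m0 * (z ^ (-(1 / 3) : ℝ))⁻¹) := by
        ring
      rw [c2, c3]
      exact mul_le_mul_of_nonneg_right (by linarith) (by positivity)
    have c4 : (1 + z) / b * n ≤ 2 / m0 * (z * (z ^ (-(1 / 3) : ℝ))⁻¹) * (z * M) :=
      mul_le_mul c1 hnz (by positivity) (by positivity)
    have c5 : 2 / m0 * (z * (z ^ (-(1 / 3) : ℝ))⁻¹) * (z * M) = 2 / m0 * (Q * M) := by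
      rw [← e3]
      ring
    rw [c5] at c4
    have c6 : (1 + z) / b * n * S ≤ 2 / m0 * (Q * M) * 2 :=
      mul_le_mul c4 hsq hS0 (by positivity)
    refine c6.trans (le_of_eq ?_)
    ring
  have b3 : (C1 * (1 / 2 : ℝ) ^ (-(3 / 2) : ℝ) * z ^ (5 / 2 : ℝ) * (2 * b) ^ (1 / 2 : ℝ) +
      C2 * z ^ 2) * M ≤ (2 * A + C2) * (Q * M) := by
    have c1 : (2 * b) ^ (1 / 2 : ℝ) = (2 * m0) ^ (1 / 2 : ℝ) * z ^ (-(1 / 6) : ℝ) := by
      rw [hb, ← mul_assoc, Real.mul_rpow (by positivity) hzp.le, e1]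
    have c2 : (2 * m0) ^ (1 / 2 : ℝ) ≤ 2 := by
      have c3 : (2 * m0) ^ (1 / 2 : ℝ) ≤ 2 ^ (1 / 2 : ℝ) :=
        Real.rpow_le_rpow (by positivity) (by linarith) (by norm_num)
      have c4 : (2 : ℝ) ^ (1 / 2 : ℝ) ≤ 2 ^ (1 : ℝ) :=
        Real.rpow_le_rpow_of_exponent_le (by norm_num) (by norm_num)
      rw [Real.rpow_one] at c4
      linarith
    rw [c1, ← hA]
    have c5 : A * z ^ (5 / 2 : ℝ) * ((2 * m0) ^ (1 / 2 : ℝ) * z ^ (-(1 / 6) : ℝ)) =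
        (2 * m0) ^ (1 / 2 : ℝ) * (A * Q) := by
      rw [← e2]
      ring
    rw [c5]
    have c6 : (2 * m0) ^ (1 / 2 : ℝ) * (A * Q) ≤ 2 * (A * Q) :=
      mul_le_mul_of_nonneg_right c2 (by positivity)
    have c7 : C2 * z ^ 2 ≤ C2 * Q := mul_le_mul_of_nonneg_left e4 hC2.le
    have c8 : (2 * m0) ^ (1 / 2 : ℝ) * (A * Q) + C2 * z ^ 2 ≤ (2 * A + C2) * Q := by linarith
    calc _ ≤ (2 * A + C2) * Q * M := mul_le_mul_of_nonneg_right c8 (by positivity)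
      _ = (2 * A + C2) * (Q * M) := by ring
  have b4 : (9 / 4 : ℝ) ≤ 9 / 4 * (Q * M) := by
    have : 1 ≤ Q * M := by nlinarith
    linarith
  have b5 : 1 / (4 * (1 : ℝ)) * resM X Z E u ≤ 1 / 4 := by linarith
  have hfin : kin u ≤ 1 / 2 * kin u + (9 / 4 + 4 / m0 + 2 * A + C2) * (Q * M) := by
    have h : (9 / 4 + 4 / m0 + 2 * A + C2) * (Q * M) = 9 / 4 * (Q * M) + 4 / m0 * (Q * M) +
        (2 * A + C2) * (Q * M) := by ring
    rw [h]
    linarith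
  have h : 2 * (9 / 4 + 4 / m0 + 2 * A + C2) * (Q * M) =
      2 * ((9 / 4 + 4 / m0 + 2 * A + C2) * (Q * M)) := by ring
  rw [h]
  linarith

end Pool.Agent.Helper38.HN
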